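import Mathlib

set_option autoImplicit false

namespace Pool.Agent.H18.SatPow

open MvPowerSeries Finsupp

variable {k : Type} [Field k] {n : ℕ}

/-- series without terms of degree less than `N` -/
def JJ (k : Type) [Field k] (n N : ℕ) : Ideal (MvPowerSeries (Fin n) k) where
  carrier := {f | ∀ d : Fin n →₀ ℕ, d.degree < N → MvPowerSeries.coeff d f = 0}
  zero_mem' := by intro d _; simp
  add_mem' := by
    intro a b ha hb d hd
    rw [map_add, ha d hd, hb d hd, add_zero]
  smul_mem' := by
    intro c x hx d hd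
    rw [smul_eq_mul, coeff_mul]
    refine Finset.sum_eq_zero fun p hp => ?_
    have hp' : p.1 + p.2 = d := Finset.HasAntidiagonal.mem_antidiagonal.mp hp
    have h1 : p.1.degree + p.2.degree = d.degree := by rw [← hp', map_add]
    rw [hx p.2 (by omega), mul_zero]

lemma mem_JJ {N : ℕ} {f : MvPowerSeries (Fin n) k} :
    f ∈ JJ k n N ↔ ∀ d : Fin n →₀ ℕ, d.degree < N → MvPowerSeries.coeff d f = 0 := Iff.rfl

lemma JJ_mul (a b : ℕ) : JJ k n a * JJ k n b ≤ JJ k n (a + b) := by
  rw [Ideal.mul_le]
  intro x hx y hy d hd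
  rw [coeff_mul]
  refine Finset.sum_eq_zero fun p hp => ?_
  have hp' : p.1 + p.2 = d := Finset.HasAntidiagonal.mem_antidiagonal.mp hp
  have h1 : p.1.degree + p.2.degree = d.degree := by rw [← hp', map_add]
  by_cases h : p.1.degree < a
  · rw [hx p.1 h, zero_mul]
  · rw [hy p.2 (by omega), mul_zero]

lemma span_le_JJ : (Ideal.span (Set.range MvPowerSeries.X) : Ideal (MvPowerSeries (Fin n) k)) ≤
    JJ k n 1 := by
  rw [Ideal.span_le]
  rintro _ ⟨i, rfl⟩ d hd
  have hd0 : d = 0 := by
    have : d.degree = 0 := by omega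
    exact (Finsupp.degree_eq_zero_iff d).mp this
  rw [hd0]
  simp

lemma pow_le_JJ (N : ℕ) :
    (Ideal.span (Set.range MvPowerSeries.X) : Ideal (MvPowerSeries (Fin n) k)) ^ N ≤
    JJ k n N := by
  induction N with
  | zero =>
    intro f _ d hd
    omega
  | succ N ih =>
    rw [pow_succ]
    exact (Ideal.mul_mono ih span_le_JJ).trans (JJ_mul N 1)

open Classical in
/-- the quotient of the part of `f` whose first variable is `i` by this variable -/
noncomputable def qq (f : MvPowerSeries (Fin n) k) (i : Fin n) : MvPowerSeries (Fin n) k :=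
  fun e => if ∀ j < i, e j = 0 then MvPowerSeries.coeff (e + single i 1) f else 0

lemma coeff_qq (f : MvPowerSeries (Fin n) k) (i : Fin n) (e : Fin n →₀ ℕ) [Decidable (∀ j < i, e j = 0)] :
    MvPowerSeries.coeff e (qq f i) =
      if ∀ j < i, e j = 0 then MvPowerSeries.coeff (e + single i 1) f else 0 := by
  change qq f i e = _
  unfold qq
  congr

lemma qq_mem {N : ℕ} {f : MvPowerSeries (Fin n) k} (hf : f ∈ JJ k n (N+1)) (i : Fin n) :
    qq f i ∈ JJ k n N := by
  classical
  intro e he
  rw [coeff_qq]
  split_ifs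
  · apply hf
    rw [map_add, Finsupp.degree_single]
    omega
  · rfl

lemma eq_sum {f : MvPowerSeries (Fin n) k} (hf : MvPowerSeries.coeff 0 f = 0) :
    f = ∑ i, MvPowerSeries.X i * qq f i := by
  classical
  ext d
  rw [map_sum]
  have h : ∀ i : Fin n, MvPowerSeries.coeff d (MvPowerSeries.X i * qq f i) =
      if d i ≠ 0 ∧ ∀ j < i, d j = 0 then MvPowerSeries.coeff d f else 0 := by
    intro i
    rw [MvPowerSeries.X_def, coeff_monomial_mul]
    by_cases hi : d i = 0
    · rw [if_neg (by
        intro hle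
        have := hle i
        rw [single_eq_same] at this
        omega), if_neg (by tauto)]
    · have hle : single i 1 ≤ d := by
        rw [single_le_iff]; omega
      rw [if_pos hle, one_mul, coeff_qq, tsub_add_cancel_of_le hle]
      have hiff : (∀ j < i, (d - single i 1 : Fin n →₀ ℕ) j = 0) ↔ (d i ≠ 0 ∧ ∀ j < i, d j = 0) := by
        constructor
        · intro h
          refine ⟨hi, fun j hj => ?_⟩
          have := h j hj
          rw [tsub_apply, single_eq_of_ne (ne_of_lt hj)] at this
          simpa using this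
        · rintro ⟨-, h⟩ j hj
          rw [tsub_apply, h j hj]; simp
      by_cases hc : ∀ j < i, (d - single i 1 : Fin n →₀ ℕ) j = 0
      · rw [if_pos hc, if_pos (hiff.mp hc)]
      · rw [if_neg hc, if_neg (fun h => hc (hiff.mpr h))]
  simp_rw [h]
  by_cases hd : d = 0
  · rw [hd, hf]
    symm
    apply Finset.sum_eq_zero
    intro i _
    simp
  · have hne : (Finset.univ.filter (fun i : Fin n => d i ≠ 0)).Nonempty := by
      by_contra hcon
      apply hd
      ext i
      by_contra hi
      exact hcon ⟨i, by simpa using hi⟩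
    set i0 := (Finset.univ.filter (fun i : Fin n => d i ≠ 0)).min' hne with hi0
    have hmem := Finset.min'_mem _ hne
    rw [← hi0, Finset.mem_filter] at hmem
    have hmin : ∀ j < i0, d j = 0 := by
      intro j hj
      by_contra hcon
      have := Finset.min'_le (Finset.univ.filter (fun i : Fin n => d i ≠ 0)) j
        (by simpa using hcon)
      rw [← hi0] at this
      exact absurd hj (not_lt.mpr this)
    rw [Finset.sum_eq_single i0]
    · rw [if_pos ⟨hmem.2, hmin⟩]
    · intro i _ hi
      rw [if_neg]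
      rintro ⟨h1, h2⟩
      rcases lt_or_gt_of_ne hi with h3 | h3
      · exact h1 (hmin i h3)
      · exact hmem.2 (h2 i0 h3)
    · intro h4; exact absurd (Finset.mem_univ _) h4

lemma JJ_le_pow (N : ℕ) : JJ k n N ≤
    (Ideal.span (Set.range MvPowerSeries.X) : Ideal (MvPowerSeries (Fin n) k)) ^ N := by
  induction N with
  | zero => rw [pow_zero, Ideal.one_eq_top]; exact le_top
  | succ N ih =>
    intro f hf
    rw [eq_sum (hf 0 (by simp)), pow_succ']
    refine Ideal.sum_mem _ fun i _ => ?_
    exact Ideal.mul_mem_mul (Ideal.subset_span ⟨i, rfl⟩) (ih (qq_mem hf i))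

theorem mem_pow_span_X {k : Type} [Field k] {n : ℕ} (N : ℕ) (f : MvPowerSeries (Fin n) k) :
    f ∈ (Ideal.span (Set.range MvPowerSeries.X) : Ideal (MvPowerSeries (Fin n) k)) ^ N ↔
      ∀ d : Fin n →₀ ℕ, d.degree < N → MvPowerSeries.coeff d f = 0 :=
  ⟨fun h => pow_le_JJ N h, fun h => JJ_le_pow N h⟩

end Pool.Agent.H18.SatPow
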